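import Pool.Agent.BEP.Stmts

/-!
# Squad BEP, row PMP: the measure of the product
-/

set_option autoImplicit false

namespace Pool.Agent.BEP.H21

open Set Filter Topology MeasureTheory
open Pool.Agent.BE01 Pool.Agent.BEP

noncomputable section

theorem cont_fs (d m : ℕ) : Continuous (fs : En (d + m) → En d) := by
  let L : En (d + m) →ₗ[ℝ] En d := ⟨⟨fs, fs_add⟩, fs_smul⟩
  exact L.continuous_of_finiteDimensional

theorem cont_sn (d m : ℕ) : Continuous (sn : En (d + m) → En m) := by
  let L : En (d + m) →ₗ[ℝ] En m := ⟨⟨sn, sn_add⟩, sn_smul⟩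
  exact L.continuous_of_finiteDimensional

theorem cont_jn (d m : ℕ) : Continuous (fun q : En d × En m => jn q.1 q.2) := by
  let L : En d × En m →ₗ[ℝ] En (d + m) :=
    ⟨⟨fun q => jn q.1 q.2, fun q q' => jn_add q.1 q'.1 q.2 q'.2⟩, fun c q => jn_smul c q.1 q.2⟩
  exact L.continuous_of_finiteDimensional

/-- The measurable equivalence. -/
def ee (d m : ℕ) : En (d + m) ≃ᵐ En d × En m where
  toFun x := (fs x, sn x)
  invFun q := jn q.1 q.2
  left_inv x := jn_fs_sn x
  right_inv q := by simp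
  measurable_toFun := ((cont_fs d m).prodMk (cont_sn d m)).measurable
  measurable_invFun := (cont_jn d m).measurable

theorem mp_full (d m : ℕ) : MeasurePreserving (ee d m) volume
    ((volume : Measure (En d)).prod (volume : Measure (En m))) := by
  have h1 := PiLp.volume_preserving_ofLp (Fin (d + m))
  have h2 := volume_measurePreserving_piCongrLeft (fun _ : Fin d ⊕ Fin m => ℝ)
    (finSumFinEquiv (m := d) (n := m)).symm
  have h3 := volume_measurePreserving_sumPiEquivProdPi (fun _ : Fin d ⊕ Fin m => ℝ)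
  have h4 := (PiLp.volume_preserving_toLp (Fin d)).prod (PiLp.volume_preserving_toLp (Fin m))
  have h5 := h4.comp (h3.comp (h2.comp h1))
  refine (congrArg (fun f => MeasurePreserving f volume
    ((volume : Measure (En d)).prod (volume : Measure (En m)))) ?_).mp h5
  funext x
  refine Prod.ext ?_ ?_
  · ext i
    show (MeasurableEquiv.piCongrLeft (fun _ : Fin d ⊕ Fin m => ℝ)
      (finSumFinEquiv (m := d) (n := m)).symm) (WithLp.ofLp x) (Sum.inl i) = x (Fin.castAdd m i)
    rw [← finSumFinEquiv_symm_apply_castAdd (n := m) i]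
    exact Equiv.piCongrLeft_apply_apply (fun _ : Fin d ⊕ Fin m => ℝ)
      (finSumFinEquiv (m := d) (n := m)).symm (WithLp.ofLp x) (Fin.castAdd m i)
  · ext i
    show (MeasurableEquiv.piCongrLeft (fun _ : Fin d ⊕ Fin m => ℝ)
      (finSumFinEquiv (m := d) (n := m)).symm) (WithLp.ofLp x) (Sum.inr i) = x (Fin.natAdd d i)
    rw [← finSumFinEquiv_symm_apply_natAdd (m := d) i]
    exact Equiv.piCongrLeft_apply_apply (fun _ : Fin d ⊕ Fin m => ℝ)
      (finSumFinEquiv (m := d) (n := m)).symm (WithLp.ofLp x) (Fin.natAdd d i)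

theorem pmp : PmpStmt := by
  intro d m
  refine ⟨ee d m, fun _ => rfl, fun _ => rfl, (cont_fs d m).prodMk (cont_sn d m), cont_jn d m,
    fun Ω1 Ω2 h1 h2 => ?_, fun Ω1 Ω2 h1 h2 => ?_⟩
  · have h := (mp_full d m).restrict_preimage (h1.prod h2)
    unfold mu
    rw [Measure.prod_restrict]
    exact h
  · obtain ⟨o1, b1, n1⟩ := h1
    obtain ⟨o2, b2, n2⟩ := h2
    refine ⟨?_, ?_, ?_⟩
    · exact (o1.preimage (cont_fs d m)).inter (o2.preimage (cont_sn d m))
    · obtain ⟨R1, hR1⟩ := b1.exists_norm_le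
      obtain ⟨R2, hR2⟩ := b2.exists_norm_le
      rw [isBounded_iff_forall_norm_le]
      refine ⟨Real.sqrt (R1 ^ 2 + R2 ^ 2), fun x hx => ?_⟩
      have e1 := hR1 _ hx.1
      have e2 := hR2 _ hx.2
      refine Real.le_sqrt_of_sq_le ?_
      have e3 := norm_jn (fs x) (sn x)
      rw [jn_fs_sn] at e3
      rw [e3]
      exact add_le_add (pow_le_pow_left₀ (norm_nonneg _) e1 2)
        (pow_le_pow_left₀ (norm_nonneg _) e2 2)
    · obtain ⟨y, hy⟩ := n1
      obtain ⟨z, hz⟩ := n2
      refine ⟨jn y z, ?_, ?_⟩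
      · rw [fs_jn]; exact hy
      · rw [sn_jn]; exact hz

end

end Pool.Agent.BEP.H21
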